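import Pool.Agent.Q42.LG.Avg

namespace Pool.Agent.Results.MP_a6e297_an.NonabelianLamps
open Finset MeasureTheory Filter Topology
open scoped ENNReal NNReal

/-- The group `⊕_ℤ A` of the finitely supported functions from the integers to `A`, with the pointwise product. -/
def Lamps (A : Type) [Group A] : Subgroup (ℤ → A) where
  carrier := {f | (Function.mulSupport f).Finite}
  mul_mem' := fun ha hb => (Set.Finite.union ha hb).subset (Function.mulSupport_mul _ _)
  one_mem' := by
    change (Function.mulSupport (1 : ℤ → A)).Finite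
    rw [Function.mulSupport_one]; exact Set.finite_empty
  inv_mem' := fun {f} hf => by
    change (Function.mulSupport f⁻¹).Finite
    rw [Function.mulSupport_inv]; exact hf

/-- The shift by `s`: the function `f` is sent to `j ↦ f (j - s)`. -/
def shift (A : Type) [Group A] : Multiplicative ℤ →* MulAut (Lamps A) where
  toFun s :=
    { toFun := fun f => ⟨fun j => f.1 (j - s.toAdd), by
        have : Function.mulSupport (fun j => f.1 (j - s.toAdd)) = (fun j => j - s.toAdd) ⁻¹' Function.mulSupport f.1 := rfl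
        change (Function.mulSupport (fun j => f.1 (j - s.toAdd))).Finite
        rw [this]
        exact Set.Finite.preimage (fun a _ b _ h => by simpa using h) f.2⟩
      invFun := fun f => ⟨fun j => f.1 (j + s.toAdd), by
        have : Function.mulSupport (fun j => f.1 (j + s.toAdd)) = (fun j => j + s.toAdd) ⁻¹' Function.mulSupport f.1 := rfl
        change (Function.mulSupport (fun j => f.1 (j + s.toAdd))).Finite
        rw [this]
        exact Set.Finite.preimage (fun a _ b _ h => by simpa using h) f.2⟩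
      left_inv := fun f => by ext j; simp
      right_inv := fun f => by ext j; simp
      map_mul' := fun f g => by ext j; rfl }
  map_one' := by ext f j; simp
  map_mul' := fun s t => by
    ext f j
    change f.1 (j - (s * t).toAdd) = f.1 (j - s.toAdd - t.toAdd)
    rw [toAdd_mul, sub_sub]

/-- The lamplighter group `A ≀ ℤ`: the semidirect product of `⊕_ℤ A` and `ℤ`, with `ℤ` acting by shifting coordinates. -/
abbrev Lamplighter (A : Type) [Group A] : Type := Lamps A ⋊[shift A] Multiplicative ℤ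

open Classical in
/-- The nonempty finite sets `F n` are a (left) Følner sequence: `|g F_n Δ F_n| / |F_n| → 0` for every `g`. -/
def Folner {G : Type} [Group G] (F : ℕ → Finset G) : Prop :=
  (∀ n, (F n).Nonempty) ∧ ∀ g : G, Tendsto
    (fun n => ((symmDiff ((F n).image fun h => g * h) (F n)).card : ℝ) / ((F n).card : ℝ)) atTop (𝓝 0)

/-- A measurable semimetric. -/
structure Semimetric {X : Type} [MeasurableSpace X] (ρ : X → X → ℝ) : Prop where
  meas : Measurable (Function.uncurry ρ)
  nonneg : ∀ x y, 0 ≤ ρ x y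
  symm : ∀ x y, ρ x y = ρ y x
  tri : ∀ x y z, ρ x z ≤ ρ x y + ρ y z

/-- `X = X₀ ∪ P 1 ∪ ⋯ ∪ P k` with measurable pieces, `μ X₀ < ε` and `diam (P i) < ε`. -/
def Splits {X : Type} [MeasurableSpace X] (μ : Measure X) (ρ : X → X → ℝ) (ε : ℝ) (k : ℕ) : Prop :=
  ∃ (X₀ : Set X) (P : Fin k → Set X), MeasurableSet X₀ ∧ (∀ i, MeasurableSet (P i)) ∧
    X₀ ∪ (⋃ i, P i) = Set.univ ∧ μ X₀ < ENNReal.ofReal ε ∧
      ∀ i, (⨆ x ∈ P i, ⨆ y ∈ P i, ENNReal.ofReal (ρ x y)) < ENNReal.ofReal ε

/-- `ℍ_ε(X, μ, ρ)`: the logarithm (base `2`) of the least positive `k` as in `Splits`, infinity if there is none. -/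
noncomputable def entropy {X : Type} [MeasurableSpace X] (μ : Measure X) (ρ : X → X → ℝ) (ε : ℝ) : ℝ≥0∞ :=
  ⨅ k : ℕ, ⨅ _ : 1 ≤ k ∧ Splits μ ρ ε k, ENNReal.ofReal (Real.logb 2 k)

/-- On a set `X'` of full measure any two distinct points have `ρ (g x) (g y) > 0` for some `g`. -/
def Generating (G : Type) {X : Type} [Group G] [MulAction G X] [MeasurableSpace X] (μ : Measure X)
    (ρ : X → X → ℝ) : Prop :=
  ∃ X' : Set X, μ X'ᶜ = 0 ∧ ∀ x ∈ X', ∀ y ∈ X', x ≠ y → ∃ g : G, 0 < ρ (g • x) (g • y)

/-- `Φ_ρ (n, ε)`: the entropy of the average of the semimetrics `ρ (g x) (g y)` over `g ∈ F n`. -/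
noncomputable def Phi {G X : Type} [Group G] [MulAction G X] [MeasurableSpace X] (F : ℕ → Finset G)
    (μ : Measure X) (ρ : X → X → ℝ) (n : ℕ) (ε : ℝ) : ℝ≥0∞ :=
  entropy μ (fun x y => (∑ g ∈ F n, ρ (g • x) (g • y)) / ((F n).card : ℝ)) ε

/-- `φ ≾ Φ`, with `φ` read as constant in `ε`. -/
def Dominated (φ : ℕ → ℝ≥0) (Φ : ℕ → ℝ → ℝ≥0∞) : Prop :=
  ∀ ε : ℝ, 0 < ε → ∃ δ : ℝ, 0 < δ ∧ limsup (fun n => (φ n : ℝ≥0∞) / Φ n δ) atTop < ⊤

/-- The group `G` has a scaling entropy growth gap. -/
def GrowthGap (G : Type) [Group G] : Prop :=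
  ∃ F : ℕ → Finset G, Folner F ∧ ∃ φ : ℕ → ℝ≥0, (∀ C : ℝ≥0, ∃ n, C < φ n) ∧
    ∀ (X : Type) [MeasurableSpace X] [StandardBorelSpace X] [MulAction G X] (μ : Measure X) [IsProbabilityMeasure μ],
      (∀ g : G, MeasurePreserving (fun x : X => g • x) μ μ) → (∀ g : G, g ≠ 1 → μ {x | g • x = x} = 0) →
      ∀ ρ : X → X → ℝ, Semimetric ρ → Integrable (Function.uncurry ρ) (μ.prod μ) →
        (∀ ε : ℝ, 0 < ε → entropy μ ρ ε < ⊤) → Generating G μ ρ → Dominated φ (Phi F μ ρ)

section
variable {A : Type} [Group A]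

/-- the finite interval `[-2n, 2n]` -/
abbrev Idx (n : ℕ) : Type := ↥(Finset.Icc (-(2 * n : ℤ)) (2 * n))

open Classical in
/-- extension by `1` -/
noncomputable def ext (A : Type) [Group A] (n : ℕ) : (Idx n → A) →* Lamps A where
  toFun c := ⟨fun j => if h : j ∈ Finset.Icc (-(2 * n : ℤ)) (2 * n) then c ⟨j, h⟩ else 1, by
    change (Function.mulSupport _).Finite
    apply (Finset.finite_toSet (Finset.Icc (-(2 * n : ℤ)) (2 * n))).subset
    intro j hj
    by_contra hcon
    apply hj
    simp only [Finset.mem_coe] at hcon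
    simp only [dif_neg hcon]⟩
  map_one' := by
    ext j
    simp
  map_mul' c d := by
    ext j
    by_cases h : j ∈ Finset.Icc (-(2 * n : ℤ)) (2 * n)
    · simp only [dif_pos h, Pi.mul_apply, Subgroup.coe_mul]
    · simp only [dif_neg h, Pi.mul_apply, Subgroup.coe_mul, mul_one]

theorem ext_apply_mem (n : ℕ) (c : Idx n → A) (j : ℤ) (h : j ∈ Finset.Icc (-(2 * n : ℤ)) (2 * n)) :
    (ext A n c).1 j = c ⟨j, h⟩ := by
  change (if h : j ∈ Finset.Icc (-(2 * n : ℤ)) (2 * n) then c ⟨j, h⟩ else 1) = _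
  rw [dif_pos h]

theorem ext_apply_not_mem (n : ℕ) (c : Idx n → A) (j : ℤ) (h : j ∉ Finset.Icc (-(2 * n : ℤ)) (2 * n)) :
    (ext A n c).1 j = 1 := by
  change (if h : j ∈ Finset.Icc (-(2 * n : ℤ)) (2 * n) then c ⟨j, h⟩ else 1) = _
  rw [dif_neg h]

theorem ext_inj (n : ℕ) : Function.Injective (ext A n) := by
  intro c d h
  funext j
  have := congrFun (congrArg Subtype.val h) j.1
  rw [ext_apply_mem n c j.1 j.2, ext_apply_mem n d j.1 j.2] at this
  exact this

/-- a finitely supported function with support in `[-2n, 2n]` is an extension -/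
theorem exists_ext (n : ℕ) (f : Lamps A) (hf : ∀ j, j ∉ Finset.Icc (-(2 * n : ℤ)) (2 * n) → f.1 j = 1) :
    ∃ c, ext A n c = f := by
  refine ⟨fun j => f.1 j.1, ?_⟩
  apply Subtype.ext
  funext j
  by_cases h : j ∈ Finset.Icc (-(2 * n : ℤ)) (2 * n)
  · rw [ext_apply_mem n _ j h]
  · rw [ext_apply_not_mem n _ j h, hf j h]

/-- every finitely supported function has support in some `[-n, n]` -/
theorem exists_bound (f : Lamps A) : ∃ n₀ : ℕ, ∀ j : ℤ, f.1 j ≠ 1 → |j| ≤ n₀ := by
  obtain ⟨M, hM⟩ := (f.2.image fun j : ℤ => j.natAbs).bddAbove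
  refine ⟨M, ?_⟩
  intro j hj
  have h1 : j.natAbs ≤ M := hM ⟨j, hj, rfl⟩
  rw [Int.abs_eq_natAbs]
  exact_mod_cast h1

/-- the power `t ^ s` of the shift -/
def tt (A : Type) [Group A] (s : ℤ) : Lamplighter A := SemidirectProduct.inr (Multiplicative.ofAdd s)

theorem tt_add (s s' : ℤ) : tt A (s + s') = tt A s * tt A s' := by
  unfold tt
  rw [ofAdd_add, map_mul]

theorem inl_tt (f : Lamps A) (s : ℤ) :
    (SemidirectProduct.inl f : Lamplighter A) * tt A s =
      tt A s * SemidirectProduct.inl (shift A (Multiplicative.ofAdd (-s)) f) := by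
  unfold tt
  ext1
  · simp only [SemidirectProduct.mul_left, SemidirectProduct.left_inl, SemidirectProduct.right_inl,
      SemidirectProduct.left_inr, SemidirectProduct.right_inr, map_one, one_mul, mul_one]
    rw [← MulAut.mul_apply, ← map_mul, ← ofAdd_add, add_neg_cancel, ofAdd_zero, map_one]
    rfl
  · simp

theorem shift_apply (s : ℤ) (f : Lamps A) (j : ℤ) : (shift A (Multiplicative.ofAdd s) f).1 j = f.1 (j - s) := rfl

theorem eq_tt_mul (g : Lamplighter A) : ∃ (s : ℤ) (f : Lamps A), g = SemidirectProduct.inl f * tt A s := by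
  refine ⟨g.right.toAdd, g.left, ?_⟩
  ext1 <;> simp [tt]

end

section
variable {A : Type} [Group A] [Fintype A]

open Classical in
/-- the sets `{t ^ s c : |s| ≤ n, c supported on [-2n, 2n]}` -/
noncomputable def FF (A : Type) [Group A] [Fintype A] (n : ℕ) : Finset (Lamplighter A) :=
  ((Finset.Icc (-(n : ℤ)) n) ×ˢ (Finset.univ : Finset (Idx n → A))).image
    fun q => tt A q.1 * SemidirectProduct.inl (ext A n q.2)

theorem pair_inj (n : ℕ) : Function.Injective
    fun q : ℤ × (Idx n → A) => tt A q.1 * (SemidirectProduct.inl (ext A n q.2) : Lamplighter A) := by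
  rintro ⟨s, c⟩ ⟨s', c'⟩ h
  have h1 := congrArg SemidirectProduct.right h
  simp only [tt, SemidirectProduct.mul_right, SemidirectProduct.right_inr, SemidirectProduct.right_inl, mul_one] at h1
  have h2 : s = s' := by simpa using h1
  subst h2
  have h3 := mul_left_cancel h
  have h4 := ext_inj n (SemidirectProduct.inl_injective h3)
  simp at h4
  rw [h4]

theorem FF_card (n : ℕ) : (FF A n).card = (2 * n + 1) * Fintype.card (Idx n → A) := by
  classical
  unfold FF
  rw [Finset.card_image_of_injective _ (pair_inj n), Finset.card_product, Finset.card_univ]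
  congr 1
  rw [Int.card_Icc]
  omega

theorem mem_FF (n : ℕ) (g : Lamplighter A) : g ∈ FF A n ↔ ∃ (s : ℤ) (c : Idx n → A),
    s ∈ Finset.Icc (-(n : ℤ)) n ∧ tt A s * SemidirectProduct.inl (ext A n c) = g := by
  classical
  unfold FF
  rw [Finset.mem_image]
  constructor
  · rintro ⟨⟨s, c⟩, hq, rfl⟩
    exact ⟨s, c, (Finset.mem_product.1 hq).1, rfl⟩
  · rintro ⟨s, c, hs, rfl⟩
    exact ⟨(s, c), Finset.mem_product.2 ⟨hs, Finset.mem_univ _⟩, rfl⟩

theorem FF_folner : Folner (FF A) := by
  classical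
  let _ : DecidableEq (Lamplighter A) := fun a b => Classical.propDecidable (a = b)
  constructor
  · intro n
    rw [← Finset.card_pos, FF_card]
    exact Nat.mul_pos (by omega) Fintype.card_pos
  · intro g
    obtain ⟨s0, f, rfl⟩ := eq_tt_mul g
    obtain ⟨n0, hn0⟩ := exists_bound f
    have hb : ∀ᶠ n : ℕ in atTop, ((symmDiff ((FF A n).image fun h => (SemidirectProduct.inl f * tt A s0) * h) (FF A n)).card : ℝ) /
        ((FF A n).card : ℝ) ≤ 4 * |(s0 : ℝ)| / (2 * n + 1) := by
      filter_upwards [eventually_ge_atTop n0] with n hn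
      set gF := (FF A n).image fun h => (SemidirectProduct.inl f * tt A s0) * h with hgF
      have hcard : gF.card = (FF A n).card := Finset.card_image_of_injective _ (mul_right_injective _)
      have hsd : (symmDiff gF (FF A n)).card = 2 * (gF \ FF A n).card := by
        rw [symmDiff_def, Finset.sup_eq_union, Finset.card_union_of_disjoint disjoint_sdiff_sdiff]
        have := Finset.card_sdiff_comm hcard
        rw [← this]; ring
      have hle : (gF \ FF A n).card ≤ 2 * s0.natAbs * Fintype.card (Idx n → A) := by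
        let bad : Finset ℤ := Finset.Ioc ((n : ℤ) - |s0|) n ∪ Finset.Ico (-(n : ℤ)) (-(n : ℤ) + |s0|)
        have hbad : bad.card ≤ 2 * s0.natAbs := by
          refine (Finset.card_union_le _ _).trans ?_
          have habs : |s0| = s0.natAbs := Int.abs_eq_natAbs s0
          rw [Int.card_Ioc, Int.card_Ico, habs]
          omega
        have hsub : gF \ FF A n ⊆ (bad ×ˢ (Finset.univ : Finset (Idx n → A))).image
            fun q => (SemidirectProduct.inl f * tt A s0) * (tt A q.1 * SemidirectProduct.inl (ext A n q.2)) := by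
          intro y hy
          rw [Finset.mem_sdiff] at hy
          obtain ⟨hy1, hy2⟩ := hy
          rw [hgF, Finset.mem_image] at hy1
          obtain ⟨z, hz, rfl⟩ := hy1
          rw [mem_FF] at hz
          obtain ⟨s, c, hq, rfl⟩ := hz
          have hs := Finset.mem_Icc.1 hq
          apply Finset.mem_image.2
          refine ⟨(s, c), ?_, rfl⟩
          rw [Finset.mem_product]
          refine ⟨?_, Finset.mem_univ _⟩
          by_contra hcon
          apply hy2
          have hss : -(n : ℤ) ≤ s0 + s ∧ s0 + s ≤ n := by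
            simp only [bad, Finset.mem_union, Finset.mem_Ioc, Finset.mem_Ico, not_or] at hcon
            have h1 := abs_le.1 (le_refl |s0|)
            omega
          have h1 : (SemidirectProduct.inl f * tt A s0) * (tt A s * (SemidirectProduct.inl (ext A n c) : Lamplighter A)) =
              tt A (s0 + s) * SemidirectProduct.inl (shift A (Multiplicative.ofAdd (-(s0 + s))) f * ext A n c) := by
            rw [map_mul, ← mul_assoc, ← mul_assoc (tt A (s0 + s)), ← inl_tt, tt_add, ← mul_assoc]
          obtain ⟨d, hd⟩ := exists_ext n (shift A (Multiplicative.ofAdd (-(s0 + s))) f) (by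
            intro j hj
            rw [shift_apply]
            by_contra hne
            have h2 := abs_le.1 (hn0 _ hne)
            apply hj
            rw [Finset.mem_Icc]
            have : (n0 : ℤ) ≤ n := by exact_mod_cast hn
            omega)
          rw [h1, ← hd, ← map_mul (ext A n), mem_FF]
          exact ⟨s0 + s, d * c, Finset.mem_Icc.2 hss, rfl⟩
        refine (Finset.card_le_card hsub).trans (Finset.card_image_le.trans ?_)
        rw [Finset.card_product, Finset.card_univ]
        exact Nat.mul_le_mul_right _ hbad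
      rw [hsd, FF_card]
      have hN : (0 : ℝ) < Fintype.card (Idx n → A) := by exact_mod_cast Fintype.card_pos
      have hle' : ((gF \ FF A n).card : ℝ) ≤ 2 * |(s0 : ℝ)| * Fintype.card (Idx n → A) := by
        have h1 : ((gF \ FF A n).card : ℝ) ≤ ((2 * s0.natAbs * Fintype.card (Idx n → A) : ℕ) : ℝ) := by exact_mod_cast hle
        have h2 : ((s0.natAbs : ℕ) : ℝ) = |(s0 : ℝ)| := by
          rw [← Int.cast_abs, Int.abs_eq_natAbs]; simp
        push_cast at h1
        rw [← Int.cast_abs] at *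
        simpa using h1
      push_cast
      rw [div_le_div_iff₀ (by positivity) (by positivity)]
      calc 2 * ((gF \ FF A n).card : ℝ) * (2 * n + 1) ≤ 2 * (2 * |(s0 : ℝ)| * Fintype.card (Idx n → A)) * (2 * n + 1) := by
            gcongr
        _ = _ := by ring
    have h0 : Tendsto (fun n : ℕ => 4 * |(s0 : ℝ)| / (2 * (n : ℝ) + 1)) atTop (𝓝 0) := by
      apply Tendsto.const_div_atTop
      apply tendsto_atTop_add_const_right
      exact Tendsto.const_mul_atTop (by norm_num) tendsto_natCast_atTop_atTop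
    exact squeeze_zero' (Eventually.of_forall fun n => by positivity) hb h0

theorem tt_inj : Function.Injective (tt A) := by
  intro s s' h
  have := congrArg SemidirectProduct.right h
  simpa [tt] using this

/-- the powers `t ^ s`, `|s| ≤ n` -/
noncomputable def TT (A : Type) [Group A] [Fintype A] (n : ℕ) : Finset (Lamplighter A) :=
  (Finset.Icc (-(n : ℤ)) n).map ⟨tt A, tt_inj⟩

theorem TT_card (n : ℕ) : (TT A n).card = 2 * n + 1 := by
  unfold TT
  rw [Finset.card_map, Int.card_Icc]
  omega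

/-- the embedding of the functions on `[-2n, 2n]` -/
noncomputable def io (A : Type) [Group A] (n : ℕ) : (Idx n → A) →* Lamplighter A :=
  (SemidirectProduct.inl : Lamps A →* Lamplighter A).comp (ext A n)

theorem R_eq {X : Type} [MulAction (Lamplighter A) X] (n : ℕ) (ρ : X → X → ℝ) (x y : X) :
    Q42.LG.R (io A n) (TT A n) ρ x y = ∑ g ∈ FF A n, ρ (g • x) (g • y) := by
  classical
  unfold FF Q42.LG.R TT
  rw [Finset.sum_image (fun a _ b _ h => pair_inj n h), Finset.sum_product, Finset.sum_map]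
  simp only [Function.Embedding.coeFn_mk, io, MonoidHom.comp_apply, mul_smul]

open Classical in
/-- the function with the value `a` at `j` and `1` elsewhere -/
def single (j : ℤ) (a : A) : Lamps A := ⟨Pi.mulSingle j a, by
  change (Function.mulSupport (Pi.mulSingle j a)).Finite
  exact (Set.finite_singleton j).subset Pi.mulSupport_mulSingle_subset⟩

theorem single_apply (j i : ℤ) (a : A) : (single j a).1 i = if i = j then a else 1 := by
  classical
  change (Pi.mulSingle j a : ℤ → A) i = _
  rw [Pi.mulSingle_apply]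

theorem shift_single (s j : ℤ) (a : A) : shift A (Multiplicative.ofAdd s) (single j a) = single (j + s) a := by
  apply Subtype.ext
  funext i
  rw [shift_apply, single_apply, single_apply]
  by_cases h : i = j + s
  · rw [if_pos h, if_pos (by omega)]
  · rw [if_neg h, if_neg (by omega)]

theorem ext_single (n : ℕ) (j : Idx n) (a : A) : ext A n (Pi.mulSingle j a) = single j.1 a := by
  apply Subtype.ext
  funext i
  rw [single_apply]
  by_cases h : i ∈ Finset.Icc (-(2 * n : ℤ)) (2 * n)
  · rw [ext_apply_mem n _ i h, Pi.mulSingle_apply]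
    by_cases hij : i = j.1
    · rw [if_pos hij, if_pos (Subtype.ext hij)]
    · rw [if_neg hij, if_neg (fun h' => hij (congrArg Subtype.val h'))]
  · rw [ext_apply_not_mem n _ i h, if_neg]
    rintro rfl
    exact h j.2

theorem key {X : Type} [MeasurableSpace X] [MulAction (Lamplighter A) X] (μ : Measure X) [IsProbabilityMeasure μ]
    (hμ : ∀ g : Lamplighter A, MeasurePreserving (fun x : X => g • x) μ μ) (ρ : X → X → ℝ) (hρ : Semimetric ρ)
    (j0 : ℤ) (a : A) (ha : a ∈ commutator A) (δ : ℝ) (hδ : 0 < δ) (n : ℕ) (hn : |j0| ≤ n) (k : ℕ)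
    (hk : Splits μ (fun x y => (∑ g ∈ FF A n, ρ (g • x) (g • y)) / ((FF A n).card : ℝ)) δ k) :
    ∫ x, min 1 (ρ x ((SemidirectProduct.inl (single j0 a) : Lamplighter A) • x)) ∂μ ≤
      10 * δ + 256 * (k : ℝ) ^ 4 / (2 * n + 1) := by
  classical
  obtain ⟨X₀, P, hX₀, hPm, hcov, hμ0, hdiam⟩ := hk
  have hN : (0 : ℝ) < Fintype.card (Idx n → A) := by exact_mod_cast Fintype.card_pos
  have hF : ((FF A n).card : ℝ) = (2 * n + 1) * Fintype.card (Idx n → A) := by
    rw [FF_card]; push_cast; ring
  have hF0 : (0 : ℝ) < (FF A n).card := by rw [hF]; positivity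
  let jf : Lamplighter A → Idx n := fun t =>
    if h : j0 - t.right.toAdd ∈ Finset.Icc (-(2 * n : ℤ)) (2 * n) then ⟨_, h⟩ else ⟨0, by simp⟩
  have hn' := abs_le.1 hn
  have hmem : ∀ s : ℤ, s ∈ Finset.Icc (-(n : ℤ)) n → j0 - s ∈ Finset.Icc (-(2 * n : ℤ)) (2 * n) := by
    intro s hs
    rw [Finset.mem_Icc] at hs ⊢
    omega
  have hjf : ∀ s : ℤ, ∀ hs : s ∈ Finset.Icc (-(n : ℤ)) n, jf (tt A s) = ⟨j0 - s, hmem s hs⟩ := by
    intro s hs
    have h1 : (tt A s).right.toAdd = s := rfl
    simp only [jf]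
    rw [dif_pos (by rw [h1]; exact hmem s hs)]
    rfl
  have h := Q42.LG.stepD μ hμ (io A n) (TT A n) ρ hρ.meas hρ.nonneg hρ.symm hρ.tri k (δ * (FF A n).card) (by positivity) P
    (by
      intro i y hy z hz
      rw [R_eq]
      have h1 : ENNReal.ofReal ((∑ g ∈ FF A n, ρ (g • y) (g • z)) / ((FF A n).card : ℝ)) < ENNReal.ofReal δ := by
        refine lt_of_le_of_lt ?_ (hdiam i)
        refine le_iSup₂_of_le y hy ?_
        exact le_iSup₂_of_le z hz le_rfl
      have h2 := (ENNReal.ofReal_lt_ofReal_iff hδ).1 h1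
      rw [div_lt_iff₀ hF0] at h2
      exact h2.le)
    X₀ hX₀
    (by
      intro y
      have : y ∈ X₀ ∪ ⋃ i, P i := by rw [hcov]; exact Set.mem_univ _
      rcases this with h1 | h1
      · exact Or.inl h1
      · exact Or.inr (Set.mem_iUnion.1 h1))
    (SemidirectProduct.inl (single j0 a)) jf (fun _ => a) (fun _ _ => ha)
    (by
      intro t1 h1 t2 h2 h12
      simp only [TT, Finset.coe_map, Function.Embedding.coeFn_mk, Set.mem_image, Finset.mem_coe] at h1 h2
      obtain ⟨s1, hs1, rfl⟩ := h1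
      obtain ⟨s2, hs2, rfl⟩ := h2
      rw [hjf s1 hs1, hjf s2 hs2] at h12
      have h3 := congrArg Subtype.val h12
      simp only at h3
      have : s1 = s2 := by omega
      rw [this])
    (by
      intro t htT
      simp only [TT, Finset.mem_map, Function.Embedding.coeFn_mk] at htT
      obtain ⟨s, hs, rfl⟩ := htT
      rw [hjf s hs, inl_tt, shift_single]
      change _ = tt A s * SemidirectProduct.inl (ext A n _)
      rw [ext_single]
      change _ = tt A s * SemidirectProduct.inl (single (j0 - s) a)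
      rw [sub_eq_add_neg])
  rw [TT_card] at h
  have hX : μ.real X₀ ≤ δ := (ENNReal.toReal_lt_of_lt_ofReal hμ0).le
  have h2 : (((2 * n + 1 : ℕ) : ℝ) * Fintype.card (Idx n → A)) *
      ∫ x, min 1 (ρ x ((SemidirectProduct.inl (single j0 a) : Lamplighter A) • x)) ∂μ ≤
      (((2 * n + 1 : ℕ) : ℝ) * Fintype.card (Idx n → A)) * (10 * δ + 256 * (k : ℝ) ^ 4 / (2 * n + 1)) := by
    refine h.trans ?_
    rw [hF]
    push_cast
    have h3 : 2 * ((2 * (n : ℝ) + 1) * Fintype.card (Idx n → A)) * μ.real X₀ ≤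
        2 * ((2 * (n : ℝ) + 1) * Fintype.card (Idx n → A)) * δ := by
      gcongr
    have h4 : (2 * (n : ℝ) + 1) * Fintype.card (Idx n → A) * (10 * δ + 256 * (k : ℝ) ^ 4 / (2 * n + 1)) =
        8 * (δ * ((2 * (n : ℝ) + 1) * Fintype.card (Idx n → A))) + 256 * (k : ℝ) ^ 4 * Fintype.card (Idx n → A) +
        2 * ((2 * (n : ℝ) + 1) * Fintype.card (Idx n → A)) * δ := by
      field_simp
      ring
    rw [h4]
    linarith
  exact le_of_mul_le_mul_left h2 (by positivity)

instance : Countable (Lamps A) := by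
  apply Function.Surjective.countable (f := fun q : Σ n : ℕ, (Idx n → A) => ext A q.1 q.2)
  intro f
  obtain ⟨n0, hn0⟩ := exists_bound f
  obtain ⟨c, hc⟩ := exists_ext n0 f (by
    intro j hj
    by_contra hne
    have h2 := abs_le.1 (hn0 _ hne)
    apply hj
    rw [Finset.mem_Icc]
    omega)
  exact ⟨⟨n0, c⟩, hc⟩

instance : Countable (Lamplighter A) := by
  apply Function.Injective.countable (f := fun g : Lamplighter A => (g.left, g.right.toAdd))
  intro g h hgh
  simp only [Prod.mk.injEq] at hgh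
  ext1
  · exact hgh.1
  · exact Multiplicative.toAdd.injective hgh.2

theorem conj_single (g : Lamplighter A) (a : A) (ha : a ∈ commutator A) :
    ∃ (j : ℤ) (a' : A), a' ∈ commutator A ∧ g * SemidirectProduct.inl (single 0 a) * g⁻¹ = SemidirectProduct.inl (single j a') := by
  obtain ⟨s, f, rfl⟩ := eq_tt_mul g
  refine ⟨s, f.1 s * a * (f.1 s)⁻¹, (inferInstance : (commutator A).Normal).conj_mem _ ha _, ?_⟩
  have h1 : tt A s * (SemidirectProduct.inl (single 0 a) : Lamplighter A) * (tt A s)⁻¹ =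
      SemidirectProduct.inl (single s a) := by
    rw [mul_inv_eq_iff_eq_mul, inl_tt, shift_single, add_neg_cancel]
  have h2 : (SemidirectProduct.inl f * tt A s) * (SemidirectProduct.inl (single 0 a) : Lamplighter A) *
      (SemidirectProduct.inl f * tt A s)⁻¹ =
      SemidirectProduct.inl f * (tt A s * SemidirectProduct.inl (single 0 a) * (tt A s)⁻¹) * (SemidirectProduct.inl f)⁻¹ := by
    group
  rw [h2, h1, ← map_inv, ← map_mul, ← map_mul]
  congr 1
  apply Subtype.ext
  funext i
  rw [single_apply]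
  change f.1 i * (single s a).1 i * (f.1 i)⁻¹ = _
  rw [single_apply]
  by_cases h : i = s
  · subst h; simp
  · simp [h]

theorem exists_moved {X : Type} [MeasurableSpace X] [MulAction (Lamplighter A) X] (μ : Measure X) [IsProbabilityMeasure μ]
    (hμ : ∀ g : Lamplighter A, MeasurePreserving (fun x : X => g • x) μ μ)
    (hfree : ∀ g : Lamplighter A, g ≠ 1 → μ {x | g • x = x} = 0) (ρ : X → X → ℝ) (hρ : Semimetric ρ)
    (hgen : Generating (Lamplighter A) μ ρ) (a : A) (ha : a ∈ commutator A) (ha1 : a ≠ 1) :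
    ∃ (j : ℤ) (a' : A), a' ∈ commutator A ∧
      0 < ∫ x, min 1 (ρ x ((SemidirectProduct.inl (single j a') : Lamplighter A) • x)) ∂μ := by
  classical
  obtain ⟨X', hX', hsep⟩ := hgen
  set g0 : Lamplighter A := SemidirectProduct.inl (single 0 a) with hg0
  have hg01 : g0 ≠ 1 := by
    intro h
    have h1 : (SemidirectProduct.inl (single 0 a) : Lamplighter A) = SemidirectProduct.inl 1 := by rw [← hg0, h, map_one]
    have h2 := congrFun (congrArg Subtype.val (SemidirectProduct.inl_injective h1)) 0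
    rw [single_apply, if_pos rfl] at h2
    exact ha1 h2
  by_contra hcon
  push Not at hcon
  have hzero : ∀ g : Lamplighter A, ∀ᵐ x ∂μ, ρ (g • x) (g • g0 • x) = 0 := by
    intro g
    obtain ⟨j, a', ha', hj⟩ := conj_single g a ha
    have h1 := hcon j a' ha'
    rw [← hj] at h1
    set b : Lamplighter A := g * SemidirectProduct.inl (single 0 a) * g⁻¹ with hb
    have hf : Measurable fun y : X => min 1 (ρ y (b • y)) :=
      measurable_const.min (hρ.meas.comp (measurable_id.prodMk (hμ b).measurable))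
    have hnn : ∀ y : X, 0 ≤ min 1 (ρ y (b • y)) := fun y => le_min zero_le_one (hρ.nonneg _ _)
    have hfi : Integrable (fun y : X => min 1 (ρ y (b • y))) μ := by
      apply Integrable.of_bound hf.aestronglyMeasurable 1
      refine Filter.Eventually.of_forall fun y => ?_
      rw [Real.norm_eq_abs, abs_of_nonneg (hnn y)]
      exact min_le_left _ _
    have h2 : ∫ y, min 1 (ρ y (b • y)) ∂μ = 0 := le_antisymm h1 (integral_nonneg hnn)
    have h3 := (integral_eq_zero_iff_of_nonneg hnn hfi).1 h2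
    have h4 : ∀ᵐ y ∂μ, ρ y (b • y) = 0 := by
      filter_upwards [h3] with y hy
      have h5 : min 1 (ρ y (b • y)) = 0 := hy
      rcases min_choice (1 : ℝ) (ρ y (b • y)) with h6 | h6
      · rw [h6] at h5; norm_num at h5
      · rw [h6] at h5; exact h5
    have h5 := (hμ g).quasiMeasurePreserving.ae h4
    filter_upwards [h5] with x hx
    have h6 : b • g • x = g • g0 • x := by
      rw [← mul_smul, ← mul_smul, hb, inv_mul_cancel_right]
    rw [← h6]
    exact hx
  have hall : ∀ᵐ x ∂μ, ∀ g : Lamplighter A, ρ (g • x) (g • g0 • x) = 0 := ae_all_iff.2 hzero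
  have h1 : ∀ᵐ x ∂μ, x ∈ X' := hX'
  have h2 : ∀ᵐ x ∂μ, g0 • x ∈ X' := (hμ g0).quasiMeasurePreserving.ae h1
  have h3 : ∀ᵐ x ∂μ, g0 • x ≠ x := by
    rw [ae_iff]
    simpa using hfree g0 hg01
  obtain ⟨x, ⟨⟨hx1, hx2⟩, hx3⟩, hx4⟩ := (((hall.and h1).and h2).and h3).exists
  obtain ⟨g, hg⟩ := hsep x hx2 (g0 • x) hx3 (Ne.symm hx4)
  rw [hx1 g] at hg
  exact lt_irrefl _ hg

theorem gap_fintype (hA : ∃ x y : A, x * y ≠ y * x) : GrowthGap (Lamplighter A) := by
  classical
  refine ⟨FF A, FF_folner, fun n => (Real.logb 2 (n + 1)).toNNReal, ?_, ?_⟩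
  · intro C
    obtain ⟨n, hn⟩ := exists_nat_gt ((2 : ℝ) ^ (C : ℝ))
    refine ⟨n, ?_⟩
    rw [← NNReal.coe_lt_coe, Real.coe_toNNReal', lt_max_iff]
    left
    rw [Real.lt_logb_iff_rpow_lt (by norm_num) (by positivity)]
    linarith
  · intro X _ _ _ μ _ hμ hfree ρ hρ _ _ hgen
    obtain ⟨x0, y0, hxy⟩ := hA
    obtain ⟨j0, a, ha, hpos⟩ := exists_moved μ hμ hfree ρ hρ hgen (x0 * y0 * x0⁻¹ * y0⁻¹)
      (Subgroup.commutator_mem_commutator (Subgroup.mem_top x0) (Subgroup.mem_top y0))
      (by
        intro h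
        apply hxy
        rw [mul_inv_eq_one, mul_inv_eq_iff_eq_mul] at h
        exact h)
    set c0 := ∫ x, min 1 (ρ x ((SemidirectProduct.inl (single j0 a) : Lamplighter A) • x)) ∂μ with hc0
    intro ε _
    refine ⟨c0 / 20, by positivity, ?_⟩
    have hlarge : ∀ᶠ n : ℕ in atTop, Real.sqrt ((n : ℝ) + 1) ≤ c0 * (2 * n + 1) / 512 := by
      have h1 : ∀ᶠ n : ℕ in atTop, 512 / c0 ≤ Real.sqrt ((n : ℝ) + 1) := by
        have : Tendsto (fun n : ℕ => Real.sqrt ((n : ℝ) + 1)) atTop atTop :=
          Real.tendsto_sqrt_atTop.comp (tendsto_atTop_add_const_right _ _ tendsto_natCast_atTop_atTop)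
        exact this.eventually_ge_atTop _
      filter_upwards [h1] with n hn
      have h2 : 512 ≤ c0 * Real.sqrt ((n : ℝ) + 1) := by
        rw [div_le_iff₀ hpos] at hn
        linarith
      have h3 : Real.sqrt ((n : ℝ) + 1) * Real.sqrt ((n : ℝ) + 1) = (n : ℝ) + 1 := Real.mul_self_sqrt (by positivity)
      have h4 : (0 : ℝ) ≤ Real.sqrt ((n : ℝ) + 1) := Real.sqrt_nonneg _
      have h5 : 512 * Real.sqrt ((n : ℝ) + 1) ≤ c0 * ((n : ℝ) + 1) := by
        calc 512 * Real.sqrt ((n : ℝ) + 1) ≤ c0 * Real.sqrt ((n : ℝ) + 1) * Real.sqrt ((n : ℝ) + 1) :=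
              mul_le_mul_of_nonneg_right h2 h4
          _ = _ := by rw [mul_assoc, h3]
      rw [le_div_iff₀ (by norm_num)]
      have h6 : c0 * ((n : ℝ) + 1) ≤ c0 * (2 * n + 1) := by
        apply mul_le_mul_of_nonneg_left _ hpos.le
        have : (0 : ℝ) ≤ n := Nat.cast_nonneg _
        linarith
      linarith
    have hbound : ∀ᶠ n : ℕ in atTop, (((Real.logb 2 ((n : ℝ) + 1)).toNNReal : ℝ≥0) : ℝ≥0∞) / Phi (FF A) μ ρ n (c0 / 20) ≤ 8 := by
      filter_upwards [hlarge, eventually_ge_atTop j0.natAbs] with n hn1 hn2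
      apply ENNReal.div_le_of_le_mul
      have h1 : ENNReal.ofReal (Real.logb 2 ((n : ℝ) + 1) / 8) ≤ Phi (FF A) μ ρ n (c0 / 20) := by
        unfold Phi entropy
        refine le_iInf fun k => le_iInf fun hk => ?_
        apply ENNReal.ofReal_le_ofReal
        have h2 := key μ hμ ρ hρ j0 a ha (c0 / 20) (by positivity) n (by
          rw [Int.abs_eq_natAbs]; exact_mod_cast hn2) k hk.2
        rw [← hc0] at h2
        have hk0 : (0 : ℝ) < k := by exact_mod_cast hk.1
        have h3 : c0 * (2 * n + 1) / 512 ≤ (k : ℝ) ^ 4 := by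
          have h4 : c0 / 2 ≤ 256 * (k : ℝ) ^ 4 / (2 * n + 1) := by linarith
          rw [le_div_iff₀ (by positivity)] at h4
          linarith
        have h4 : Real.sqrt ((n : ℝ) + 1) ≤ (k : ℝ) ^ 4 := hn1.trans h3
        have h5 : Real.logb 2 (Real.sqrt ((n : ℝ) + 1)) ≤ Real.logb 2 ((k : ℝ) ^ 4) :=
          Real.logb_le_logb_of_le (by norm_num) (Real.sqrt_pos.2 (by positivity)) h4
        rw [Real.logb_pow, Real.sqrt_eq_rpow, Real.logb_rpow_eq_mul_logb_of_pos (by positivity)] at h5
        push_cast at h5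
        linarith
      calc (((Real.logb 2 ((n : ℝ) + 1)).toNNReal : ℝ≥0) : ℝ≥0∞) = ENNReal.ofReal (8 * (Real.logb 2 ((n : ℝ) + 1) / 8)) := by
            rw [mul_div_cancel₀]
            · rfl
            · norm_num
        _ = 8 * ENNReal.ofReal (Real.logb 2 ((n : ℝ) + 1) / 8) := by
            rw [ENNReal.ofReal_mul (by norm_num)]
            norm_num
        _ ≤ 8 * Phi (FF A) μ ρ n (c0 / 20) := by gcongr
    refine lt_of_le_of_lt (limsup_le_of_le (by isBoundedDefault) hbound) (by norm_num)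

end

/-- **Lamplighters with non-abelian lamps have a scaling entropy growth gap.** For every finite non-abelian group `A`
the lamplighter group `A ≀ ℤ` has a scaling entropy growth gap. -/
theorem result (A : Type) [Group A] [Finite A] (hA : ∃ x y : A, x * y ≠ y * x) : GrowthGap (Lamplighter A) := by
  have := Fintype.ofFinite A
  exact gap_fintype hA

end Pool.Agent.Results.MP_a6e297_an.NonabelianLamps
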